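import Pool.Agent.Helper23.SP.Basic

set_option autoImplicit false

/-!
# Project SP, piece SP-B: resampling one level
-/

namespace Pool.Agent.Helper54.SP

open Finset
open Pool.Agent.Helper23.SP
open Pool.Agent.Helper22.ETModel Pool.Agent.Helper22.TSModel

section lens

variable {El : Type} [Fintype El] {k b U : ℕ} [NeZero b]

/-- The data of level `r`. -/
def get (r : Fin k) (ω : Om El k b U) : (El → Fin b) × ((Fin k → Fin b) → Fin U) :=
  (fun e => ω.1 e r, ω.2 r)

omit [Fintype El] [NeZero b] in
lemma get_put (r : Fin k) (ω : Om El k b U) (ξ : (El → Fin b) × ((Fin k → Fin b) → Fin U)) :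
    get r (put r ω ξ) = ξ := by
  simp [get, put]

omit [Fintype El] [NeZero b] in
lemma put_put_get (r : Fin k) (ω : Om El k b U) (ξ : (El → Fin b) × ((Fin k → Fin b) → Fin U)) :
    put r (put r ω ξ) (get r ω) = ω := by
  simp [get, put]

/-- The involution which exchanges the data of level `r`. -/
def swp (r : Fin k) : (Om El k b U × ((El → Fin b) × ((Fin k → Fin b) → Fin U))) ≃
    (Om El k b U × ((El → Fin b) × ((Fin k → Fin b) → Fin U))) where
  toFun p := (put r p.1 p.2, get r p.1)
  invFun p := (put r p.1 p.2, get r p.1)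
  left_inv p := by
    simp only [get_put, put_put_get]
  right_inv p := by
    simp only [get_put, put_put_get]

open Classical in
/-- The indicator function. -/
noncomputable def ind {α : Type} (A : Finset α) (a : α) : ℕ :=
  @ite ℕ (a ∈ A) (Classical.propDecidable _) 1 0

omit [Fintype El] [NeZero b] in
lemma sum_ind {α : Type} [Fintype α] (A : Finset α) : ∑ a, ind A a = A.card := by
  classical
  have : ∀ a, ind A a = if a ∈ A then 1 else 0 := by
    intro a
    unfold ind
    split_ifs <;> rfl
  simp only [this]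
  rw [Finset.sum_ite_mem, Finset.univ_inter, Finset.sum_const, smul_eq_mul, mul_one]

open Classical in
/-- SP-B1. -/
theorem card_put [DecidableEq El] (r : Fin k) (A : Finset (Om El k b U)) (x : ℕ)
    (h : ∀ ω : Om El k b U,
      (univ.filter (fun ξ : (El → Fin b) × ((Fin k → Fin b) → Fin U) => put r ω ξ ∈ A)).card *
        2 ^ x ≤ Fintype.card ((El → Fin b) × ((Fin k → Fin b) → Fin U))) :
    A.card * 2 ^ x ≤ Fintype.card (Om El k b U) := by
  have key : ∑ ω : Om El k b U,
      (univ.filter (fun ξ : (El → Fin b) × ((Fin k → Fin b) → Fin U) => put r ω ξ ∈ A)).card =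
      A.card * Fintype.card ((El → Fin b) × ((Fin k → Fin b) → Fin U)) := by
    simp_rw [Finset.card_filter]
    rw [← Fintype.sum_prod_type']
    refine (Fintype.sum_equiv (swp r) _ (fun p => ind A p.1) (fun p => rfl)).trans ?_
    rw [Fintype.sum_prod_type]
    simp only [Finset.sum_const, Finset.card_univ, smul_eq_mul]
    rw [← Finset.mul_sum, mul_comm, sum_ind]
  rcases A.eq_empty_or_nonempty with hA | ⟨a, ha⟩
  · subst hA; simp
  · have hpos : 0 < Fintype.card ((El → Fin b) × ((Fin k → Fin b) → Fin U)) :=
      Fintype.card_pos_iff.2 ⟨get r a⟩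
    have h1 : (A.card * 2 ^ x) * Fintype.card ((El → Fin b) × ((Fin k → Fin b) → Fin U)) ≤
        Fintype.card (Om El k b U) *
          Fintype.card ((El → Fin b) × ((Fin k → Fin b) → Fin U)) := by
      calc (A.card * 2 ^ x) * Fintype.card ((El → Fin b) × ((Fin k → Fin b) → Fin U))
          = (∑ ω : Om El k b U, (univ.filter (fun ξ : (El → Fin b) × ((Fin k → Fin b) → Fin U) =>
              put r ω ξ ∈ A)).card) * 2 ^ x := by rw [key]; ring
        _ = ∑ ω : Om El k b U, (univ.filter (fun ξ : (El → Fin b) × ((Fin k → Fin b) → Fin U) =>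
              put r ω ξ ∈ A)).card * 2 ^ x := by rw [Finset.sum_mul]
        _ ≤ ∑ _ω : Om El k b U, Fintype.card ((El → Fin b) × ((Fin k → Fin b) → Fin U)) :=
            Finset.sum_le_sum (fun ω _ => h ω)
        _ = Fintype.card (Om El k b U) *
          Fintype.card ((El → Fin b) × ((Fin k → Fin b) → Fin U)) := by
            rw [Finset.sum_const, Finset.card_univ, smul_eq_mul]
    exact Nat.le_of_mul_le_mul_right h1 hpos

omit [Fintype El] in
/-- SP-B2. -/
theorem g_put_lt {r i : Fin k} (hi : i.val < r.val) (ω : Om El k b U)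
    (ξ : (El → Fin b) × ((Fin k → Fin b) → Fin U)) (e : El) :
    g i (put r ω ξ) e = g i ω e := by
  have hne : i ≠ r := fun h => by subst h; exact lt_irrefl _ hi
  unfold g put
  simp only [Function.update_of_ne hne]
  refine congrArg (ω.2 i) (funext fun j => ?_)
  unfold pre
  by_cases hj : j.val < i.val + 1
  · have hjr : j ≠ r := fun h => by subst h; omega
    simp only [hj, if_true, Function.update_of_ne hjr]
  · simp only [hj, if_false]

omit [Fintype El] in
/-- SP-B3. -/
theorem g_put_self (r : Fin k) (ω : Om El k b U)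
    (ξ : (El → Fin b) × ((Fin k → Fin b) → Fin U)) (e : El) :
    g r (put r ω ξ) e = ξ.2 (Function.update (pre r.val (ω.1 e)) r (ξ.1 e)) := by
  unfold g put
  simp only [Function.update_self]
  refine congrArg ξ.2 (funext fun j => ?_)
  unfold pre
  by_cases hjr : j = r
  · subst hjr
    simp
  · have hv : j.val ≠ r.val := fun h => hjr (Fin.ext h)
    rw [Function.update_of_ne hjr, Function.update_of_ne hjr]
    by_cases hj : j.val < r.val
    · rw [if_pos hj, if_pos (by omega)]
    · rw [if_neg hj, if_neg (by omega)]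

omit [Fintype El] in
/-- SP-B4. -/
theorem g_put_gt {r i : Fin k} (hi : r.val < i.val) (ω : Om El k b U)
    {ξ ξ' : (El → Fin b) × ((Fin k → Fin b) → Fin U)} {e : El} (he : ξ.1 e = ξ'.1 e) :
    g i (put r ω ξ) e = g i (put r ω ξ') e := by
  have hne : i ≠ r := fun h => by subst h; exact lt_irrefl _ hi
  unfold g put
  simp only [Function.update_of_ne hne, he]

/-- SP-B5. -/
theorem pass_put {r : Fin k} {r' : ℕ} (hr : r' ≤ r.val) (γ : El → ℤ) (ω : Om El k b U)
    (ξ : (El → Fin b) × ((Fin k → Fin b) → Fin U)) :
    Pass γ (put r ω ξ) r' ↔ Pass γ ω r' := by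
  unfold Pass
  refine forall_congr' fun i => forall_congr' fun hi => forall_congr' fun u => ?_
  simp only [g_put_lt (lt_of_lt_of_le hi hr)]

end lens

end Pool.Agent.Helper54.SP
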